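import Pool.Agent.Helper15.Sub.Main

namespace Pool.Agent.Results.MP_686c67_co.ExactFormula

open SubPow

/-- For all `d ≥ 1` and `t ≥ 0` the maximum of the subchromatic number of `G ^ d` over all finite
graphs `G` of treewidth at most `t` is `1 + ∑_{k=1}^{d} C(t + j(k) - 1, j(k))`, where
`j(k) = jj d k` is `⌊log₂ (2k)⌋` if `d` is odd and `⌊log₂ (k+1)⌋` if `d` is even. -/
theorem result (d t : ℕ) (hd : 1 ≤ d) :
    IsGreatest
      {m : ℕ | ∃ (V : Type) (_ : Fintype V) (G : SimpleGraph V),
        treewidth G ≤ t ∧ subchromatic (power G d) = m}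
      (1 + ∑ k ∈ Finset.Icc 1 d, (t + jj d k - 1).choose (jj d k)) :=
  main d t hd

end Pool.Agent.Results.MP_686c67_co.ExactFormula
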